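import Pool.Agent.W886.PM.Fin

/-!
# How many strings of a random oracle have to be changed to make Partial MCSP easy?

`PMCSP A` is the minimum circuit size problem for partial truth tables with gates for the oracle `A`.
The number of changes is measured by a function `g`: the oracle `A` is obtained from `O` by changing,
for all large `n`, at most `g n` of the strings of length at most `n`. If `g n ≤ 2 ^ (n ^ ε)` for
every `ε > 0` and infinitely many `n`, then `PMCSP A` is not in `coNP^A / poly` (in particular it is
neither in `P^A` nor in `ZPP^A`) for almost every oracle `O` and all oracles `A` that are obtained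
from `O` by at most `g` changes, however these changes depend on `O`.
Otherwise every oracle `O` can be changed, by at most `g` changes, into an oracle `A` with
`PMCSP A ∈ P^A`, and also into an oracle `A` with `PMCSP A ∈ ZPP^A` and `P^A ≠ NP^A`.

So the threshold is exactly at the functions which are not subexponential.
-/

set_option autoImplicit false

namespace Pool.Agent.Results.MP_d2e5f8_lc.ChangedStrings

open Pool.Agent.NPC Pool.Agent.H620R2.Gauge Pool.Agent.W886.PM
open Pool.Agent.W900.CH (Close)
open Pool.Agent.H628R3.RO (randomOracle)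
open MeasureTheory

theorem result (g : ℕ → ℝ) :
    ((∀ ε : ℝ, 0 < ε → ∃ᶠ n : ℕ in Filter.atTop, g n ≤ 2 ^ (n : ℝ) ^ ε) →
      ∀ᵐ O ∂randomOracle, ∀ A : Oracle, Close g O A →
        ¬ WithAdvice (IsNP A) (PMCSP A)ᶜ ∧ ¬ IsP A (PMCSP A) ∧ ¬ IsZPP A (PMCSP A)) ∧
    ((¬ ∀ ε : ℝ, 0 < ε → ∃ᶠ n : ℕ in Filter.atTop, g n ≤ 2 ^ (n : ℝ) ^ ε) →
      ∀ O : Oracle, (∃ A : Oracle, Close g O A ∧ IsP A (PMCSP A)) ∧
        ∃ A : Oracle, Close g O A ∧ IsZPP A (PMCSP A) ∧ ∃ L, IsNP A L ∧ ¬ IsP A L) :=
  main PMCSP np_C null_C g

end Pool.Agent.Results.MP_d2e5f8_lc.ChangedStrings
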