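import Mathlib
import Pool.Agent.W939.QR.Main

/-!
For EVERY partial truth table `T` of arity `n`, with an arbitrary domain, and EVERY
`s ≥ (n + 1) ^ C`: refutations of the statement that some De Morgan circuit with `s` gates agrees
with `T`, whose lines are arbitrary formulas of size `s ^ (2 - δ)` over the bits describing the
circuit, have at least `2 ^ (s ^ ε)` lines.
-/

namespace Pool.Agent.Results.MP_d2e5f8_lc.PartialTableRefutations

open H542.MC Pool.Agent.W939.PT Pool.Agent.W939.QR

/-- For every `δ > 0` there are `ε > 0` and `C` such that for all `n ≥ 1`, all `s ≥ (n + 1) ^ C`,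
all address lengths `w` with `n + s ≤ 2 ^ w`, and EVERY partial truth table
`T : {0,1}^n → {0,1,*}`: every refutation of the statement that some De Morgan circuit with `s`
AND/OR gates agrees with `T`, whose lines are formulas of size at most `s ^ (2 - δ)` over the bits
describing the circuit and whose inferences use at most `s ^ ε` earlier lines and the agreement
of the circuit with `T` at at most `s ^ ε` inputs, has at least `2 ^ (s ^ ε)` lines. -/
theorem result (δ : ℝ) (hδ : 0 < δ) : ∃ ε : ℝ, 0 < ε ∧ ∃ C : ℕ, ∀ n s w : ℕ, 1 ≤ n →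
    (n + 1) ^ C ≤ s → n + s ≤ 2 ^ w → ∀ (T : (Fin n → Bool) → Option Bool) (a L S : ℕ),
      (a : ℝ) ≤ (s : ℝ) ^ ε → (L : ℝ) ≤ (s : ℝ) ^ (2 - δ) →
        Nonempty (Ref (Bits s w) (Fin n → Bool) (Agrees T) a L S) →
          (2 : ℝ) ^ ((s : ℝ) ^ ε) ≤ S :=
  circ δ hδ

end Pool.Agent.Results.MP_d2e5f8_lc.PartialTableRefutations
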