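import Pool.Agent.W953.PM.Low

/-!
# Partial MCSP on few and on many numbers of allowed entries

A table for functions of `n` variables is given by `2 ^ (n + 1)` bits that say for each point `x` and
each bit `b` whether the value `b` is allowed at `x`; the question is whether some circuit with at
most `s` gates has only allowed values. On partial truth tables this is Partial MCSP. `Easy` says
that this problem has circuits of polynomial size, and `EasyOn t W` that it has such circuits with
at most `t n` NOT gates which, for every `a`, have to be right only on the tables with at least `a`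
and less than `a + W n` allowed entries.

Here it is shown that `EasyOn t W` and `Easy` are equivalent if `1 ≤ W ≤ K * 2 ^ t` for a constant
`K`, and that there are no such circuits without NOT gates, even of size
`2 ^ N ^ δ`, if `W ≥ N ^ ε`, where `N = 2 ^ (n + 1)`.
-/

set_option autoImplicit false

namespace Pool.Agent.Results.MP_d2e5f8_lc.TableWindows

open Filter Pool.Agent.W953.PM
open Pool.Agent (H540R2.Circuit)
open Pool.Agent.H589R2 (allowed PartialMCSP)

/-- (1) The problem is Partial MCSP on the codes of partial truth tables. (2) If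
`1 ≤ W n ≤ K * 2 ^ t n` then `EasyOn t W` is equivalent to `Easy`. (3) If `2 ^ n ≤ W n ^ d` for a
constant `d` and infinitely many `n` then `EasyOn 0 W` is false. (4) Let `2560 ≤ n' ≤ n`,
`2 ^ (n' / 4) ≤ s ≤ 2 ^ (n' / 2)` and `2 ^ (n' + 1) < W`. A circuit without NOT gates that is right on
all tables with at least `2 ^ (n + 1) - 2 ^ (n' + 1)` and less than
`2 ^ (n + 1) - 2 ^ (n' + 1) + W` allowed entries has at least `2 ^ (2 ^ (n' / 256 - 2))` gates. -/
theorem result :
    (∀ (n s : ℕ) (T : (Fin n → Bool) → Option Bool),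
      Fits n s (allowed T) ↔ PartialMCSP n s T) ∧
    (∀ (K : ℕ) (t W : ℕ → ℕ), (∀ n, 1 ≤ W n ∧ W n ≤ K * 2 ^ t n) → (EasyOn t W ↔ Easy)) ∧
    (∀ (W : ℕ → ℕ) (d : ℕ), (∃ᶠ n : ℕ in atTop, 2 ^ n ≤ W n ^ d) →
      ¬ EasyOn (fun _ => 0) W) ∧
    (∀ n n' s W : ℕ, n' ≤ n → 2560 ≤ n' → 2 ^ (n' / 4) ≤ s → s ≤ 2 ^ (n' / 2) →
      2 ^ (n' + 1) < W → ∀ D : H540R2.Circuit (2 ^ (n + 1)), D.nots = 0 →
      (∀ y, 2 ^ (n + 1) ≤ ones y + 2 ^ (n' + 1) →
        ones y < 2 ^ (n + 1) - 2 ^ (n' + 1) + W → Right s D y) →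
      2 ^ 2 ^ (n' / 256 - 2) ≤ D.size) :=
  ⟨fits_allowed, easy_iff, not_on,
    fun _ _ _ _ h1 h2 h3 h4 h5 D h6 h7 => low h1 h2 h3 h4 h5 D h6 h7⟩

end Pool.Agent.Results.MP_d2e5f8_lc.TableWindows
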